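import Mathlib

/-!
# Abel–Jacobi maps and blow-ups of projective spaces: definitions
-/

universe u

namespace Pool.Agent.Q129.BL

/-- Number fields `k ⊂ ℂ`, smooth projective varieties over them, homologically trivial cycles and
Abel–Jacobi maps (all groups tensored with `ℚ`). -/
structure AJTheory where
  /-- the number fields `k ⊂ ℂ` -/
  Fld : Type u
  /-- `k ⊆ K` -/
  le : Fld → Fld → Prop
  /-- the smooth projective varieties over `k`, nonempty and equidimensional -/
  Var : Fld → Type u
  /-- the dimension -/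
  dim : ∀ {k : Fld}, Var k → ℕ
  /-- extension of the base field -/
  ext : ∀ {k K : Fld}, le k K → Var k → Var K
  /-- the homologically trivial cycles `CH^m(X)_hom ⊗ ℚ` -/
  A : ∀ {k : Fld}, Var k → ℕ → Type u
  /-- Griffiths' intermediate Jacobian `J^(2m-1)(X_ℂ) ⊗ ℚ` -/
  J : ∀ {k : Fld}, Var k → ℕ → Type u
  [grpA : ∀ {k : Fld} (X : Var k) (m : ℕ), AddCommGroup (A X m)]
  [modA : ∀ {k : Fld} (X : Var k) (m : ℕ), Module ℚ (A X m)]
  [grpJ : ∀ {k : Fld} (X : Var k) (m : ℕ), AddCommGroup (J X m)]
  [modJ : ∀ {k : Fld} (X : Var k) (m : ℕ), Module ℚ (J X m)]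
  /-- the Abel–Jacobi map `AJ^m` -/
  aj : ∀ {k : Fld} (X : Var k) (m : ℕ), A X m →ₗ[ℚ] J X m
  /-- the disjoint union of the members of the list embeds in the projective space `ℙ^n` over `k`,
  with all codimensions at least two, for all `n ≥ N0 l` -/
  N0 : ∀ {k : Fld}, List (Var k) → ℕ
  /-- the blow-up of `ℙ^n` over `k` along this disjoint union, for a fixed embedding (of interest
  only for `n ≥ N0 l`): a smooth projective rational variety of dimension `n` -/
  Bl : ∀ {k : Fld}, List (Var k) → ℕ → Var k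

attribute [instance] AJTheory.grpA AJTheory.modA AJTheory.grpJ AJTheory.modJ

namespace AJTheory

variable (T : AJTheory.{u})

/-- The map `AJ^m` of `X` (tensored with `ℚ`) is injective. -/
def Inj {k : T.Fld} (X : T.Var k) (m : ℕ) : Prop := Function.Injective (T.aj X m)

/-- `A X m` is contained in `A Y m'`, compatibly with the Abel–Jacobi maps. -/
def Contained {k K : T.Fld} (X : T.Var k) (m : ℕ) (Y : T.Var K) (m' : ℕ) : Prop :=
  ∃ (s : T.A X m →ₗ[ℚ] T.A Y m') (s' : T.J X m →ₗ[ℚ] T.J Y m'),
    Function.Injective s ∧ ∀ z, T.aj Y m' (s z) = s' (T.aj X m z)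

/-- Some homomorphism `A Y m' → A X m` which is compatible with the Abel–Jacobi maps does not map
`z` to zero. -/
def Detects {k : T.Fld} (X : T.Var k) (m : ℕ) (Y : T.Var k) (m' : ℕ) (z : T.A Y m') : Prop :=
  ∃ (r : T.A Y m' →ₗ[ℚ] T.A X m) (r' : T.J Y m' →ₗ[ℚ] T.J X m),
    (∀ y, T.aj X m (r y) = r' (T.aj Y m' y)) ∧ r z ≠ 0

/-- Known facts.
* `zero`, `above`: there are no homologically trivial cycles `≠ 0` in codimension `0`, and no cycles
  in codimension above the dimension.
* `extend`: `CH^m(X) ⊗ ℚ → CH^m(X_K) ⊗ ℚ` is injective and compatible with the Abel–Jacobi maps.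
* `incl`, `proj`: the blow-up formula (Manin). The motive of the blow-up `Y` of `ℙ^n` along the
  disjoint union of the varieties `X` of the list is the direct sum of powers of the Lefschetz motive
  and of the motives `h(X)(-j)`, `0 < j < n - dim X`. So `CH^m(X)_hom → CH^(m+j)(Y)_hom` is injective,
  and an element `z ≠ 0` of `CH^m(Y)_hom` has a component `≠ 0` in one of the groups
  `CH^(m-j)(X)_hom`; the maps are given by correspondences, so they are compatible with the
  Abel–Jacobi maps. -/
structure Facts : Prop where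
  zero : ∀ {k : T.Fld} (X : T.Var k), Subsingleton (T.A X 0)
  above : ∀ {k : T.Fld} (X : T.Var k) (m : ℕ), T.dim X < m → Subsingleton (T.A X m)
  extend : ∀ {k K : T.Fld} (h : T.le k K) (X : T.Var k) (m : ℕ), T.Contained X m (T.ext h X) m
  incl : ∀ {k : T.Fld} (l : List (T.Var k)) (n : ℕ), T.N0 l ≤ n → ∀ X ∈ l, ∀ m j : ℕ, 0 < j →
    T.dim X + j < n → T.Contained X m (T.Bl l n) (m + j)
  proj : ∀ {k : T.Fld} (l : List (T.Var k)) (n : ℕ), T.N0 l ≤ n → ∀ (m' : ℕ)
    (z : T.A (T.Bl l n) m'), z ≠ 0 → ∃ X ∈ l, ∃ m j : ℕ, m + j = m' ∧ 0 < j ∧ T.dim X + j < n ∧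
      T.Detects X m (T.Bl l n) m' z

/-- The sequence of number fields `k s`, lists `l s` of varieties over `k s` and numbers `N s` is
*exhausting*: each variety over a number field belongs, after extension of the base field, to all but
finitely many of the lists, and `N s` is larger than the dimensions of the members of `l s` and so
large that the disjoint union of the members of `l s` embeds in `ℙ^(2 N s - 1)`. -/
structure Exhausting (k : ℕ → T.Fld) (l : ∀ s, List (T.Var (k s))) (N : ℕ → ℕ) : Prop where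
  all : ∀ (k' : T.Fld) (X : T.Var k'), ∃ s₀, ∀ s, s₀ ≤ s → ∃ h : T.le k' (k s), T.ext h X ∈ l s
  dims : ∀ s, ∀ X ∈ l s, T.dim X < N s
  embeds : ∀ s, T.N0 (l s) ≤ 2 * N s - 1

/-- `AJ^N` is injective for the blow-up of `ℙ^(2N-1)` along the disjoint union of the members of `l`
(its middle cohomology). -/
def MiddleInj {k : T.Fld} (l : List (T.Var k)) (N : ℕ) : Prop := T.Inj (T.Bl l (2 * N - 1)) N

/-- Q1: `AJ^m` is injective for all number fields, all varieties and all `m ≥ 1`. -/
def Question : Prop := ∀ (k : T.Fld) (X : T.Var k) (m : ℕ), 1 ≤ m → T.Inj X m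

/-- For all finite lists `l` of varieties and `N` larger than the dimensions of the members of `l`,
`N0 l ≤ 2 N - 1`: `AJ^N` is injective for the blow-up of `ℙ^(2N-1)` if and only if `AJ^m` is injective
for all `X ∈ l` and all `m ≥ 1`. -/
def ForEachBlowUp : Prop :=
  ∀ (k : T.Fld) (l : List (T.Var k)) (N : ℕ), (∀ X ∈ l, T.dim X < N) → T.N0 l ≤ 2 * N - 1 →
    (T.MiddleInj l N ↔ ∀ X ∈ l, ∀ m, 1 ≤ m → T.Inj X m)

/-- For every exhausting sequence Q1 holds if and only if `AJ^(N s)` is injective for the blow-up of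
`ℙ^(2 N s - 1)` along the disjoint union of the members of `l s`, for infinitely many `s`. -/
def AlongSequences : Prop :=
  ∀ (k : ℕ → T.Fld) (l : ∀ s, List (T.Var (k s))) (N : ℕ → ℕ), T.Exhausting k l N →
    (T.Question ↔ {s | T.MiddleInj (l s) (N s)}.Infinite)

end AJTheory

end Pool.Agent.Q129.BL
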