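import Pool.Agent.Q129.BL.AJDefs

/-!
# Abel–Jacobi maps and blow-ups of projective spaces
-/

universe u

namespace Pool.Agent.Q129.BL

namespace AJTheory

variable {T : AJTheory.{u}}

lemma inj_of_contained {k K : T.Fld} {X : T.Var k} {Y : T.Var K} {m m' : ℕ}
    (h : T.Contained X m Y m') (hY : T.Inj Y m') : T.Inj X m := by
  obtain ⟨s, s', hs, hc⟩ := h
  intro a b hab
  apply hs
  apply hY
  rw [hc, hc, hab]

/-- the exact equivalence for one blow-up -/
theorem blowup_iff (hT : T.Facts) {k : T.Fld} (l : List (T.Var k)) (N : ℕ)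
    (hN : ∀ X ∈ l, T.dim X < N) (hl : T.N0 l ≤ 2 * N - 1) :
    T.Inj (T.Bl l (2 * N - 1)) N ↔ ∀ X ∈ l, ∀ m, 1 ≤ m → T.Inj X m := by
  constructor
  · intro h X hX m hm
    by_cases hd : T.dim X < m
    · have := hT.above X m hd
      exact Function.injective_of_subsingleton _
    · have h1 := hN X hX
      have h2 := hT.incl l (2 * N - 1) hl X hX m (N - m) (by omega) (by omega)
      have e : m + (N - m) = N := by omega
      rw [e] at h2
      exact inj_of_contained h2 h
  · intro h
    rw [Inj, injective_iff_map_eq_zero]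
    intro z hz
    by_contra hne
    obtain ⟨X, hX, m, j, hmj, -, -, r, r', hr, hrz⟩ := hT.proj l (2 * N - 1) hl N z hne
    apply hrz
    have h0 : T.aj X m (r z) = 0 := by rw [hr, hz, map_zero]
    rcases Nat.eq_zero_or_pos m with hm | hm
    · subst hm
      have := hT.zero X
      exact Subsingleton.elim _ _
    · exact (injective_iff_map_eq_zero _).1 (h X hX m hm) _ h0

/-- exhausting sequences -/
theorem exhausting_iff (hT : T.Facts) (k : ℕ → T.Fld) (l : ∀ s, List (T.Var (k s))) (N : ℕ → ℕ)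
    (hE : T.Exhausting k l N) :
    (∀ (k' : T.Fld) (X : T.Var k') (m : ℕ), 1 ≤ m → T.Inj X m) ↔
      {s | T.Inj (T.Bl (l s) (2 * N s - 1)) (N s)}.Infinite := by
  constructor
  · intro h
    have : {s | T.Inj (T.Bl (l s) (2 * N s - 1)) (N s)} = Set.univ := by
      ext s
      simp only [Set.mem_setOf_eq, Set.mem_univ, iff_true]
      exact (blowup_iff hT (l s) (N s) (hE.dims s) (hE.embeds s)).2 fun X _ m hm => h _ X m hm
    rw [this]
    exact Set.infinite_univ
  · intro h k' X m hm
    obtain ⟨s₀, hs₀⟩ := hE.all k' X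
    obtain ⟨s, hs, hlt⟩ := h.exists_gt s₀
    obtain ⟨hle, hmem⟩ := hs₀ s hlt.le
    have h1 := (blowup_iff hT (l s) (N s) (hE.dims s) (hE.embeds s)).1 hs _ hmem m hm
    exact inj_of_contained (hT.extend hle X m) h1

end AJTheory

end Pool.Agent.Q129.BL
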