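import Mathlib

/-!
# Abel–Jacobi maps over `ℚ` and blow-ups of projective spaces: definitions
-/

universe u

namespace Pool.Agent.Q129.BL

/-- Smooth proper varieties over `ℚ`, homologically trivial cycles and Abel–Jacobi maps (all groups
tensored with `ℚ`). -/
structure AJOverQ where
  /-- the smooth proper varieties over `ℚ`, nonempty and equidimensional -/
  Var : Type u
  /-- the variety is projective -/
  Projective : Var → Prop
  /-- the dimension -/
  dim : Var → ℕ
  /-- the homologically trivial cycles `CH^i(X)^0 ⊗ ℚ` -/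
  A : Var → ℕ → Type u
  /-- Griffiths' intermediate Jacobian `J^i(X_ℂ) ⊗ ℚ` -/
  J : Var → ℕ → Type u
  [grpA : ∀ (X : Var) (i : ℕ), AddCommGroup (A X i)]
  [modA : ∀ (X : Var) (i : ℕ), Module ℚ (A X i)]
  [grpJ : ∀ (X : Var) (i : ℕ), AddCommGroup (J X i)]
  [modJ : ∀ (X : Var) (i : ℕ), Module ℚ (J X i)]
  /-- the Abel–Jacobi map `CH^i(X)^0 → J^i(X_ℂ)` -/
  aj : ∀ (X : Var) (i : ℕ), A X i →ₗ[ℚ] J X i
  /-- the disjoint union of the (projective) members of the list embeds in the projective space
  `ℙ^n`, with all codimensions at least two, for all `n ≥ N0 l` -/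
  N0 : List Var → ℕ
  /-- the blow-up of `ℙ^n` along this disjoint union, for a fixed embedding (of interest only for
  `n ≥ N0 l` and projective members): a smooth projective rational variety of dimension `n` -/
  Bl : List Var → ℕ → Var

attribute [instance] AJOverQ.grpA AJOverQ.modA AJOverQ.grpJ AJOverQ.modJ

namespace AJOverQ

variable (T : AJOverQ.{u})

/-- The kernel of `CH^i(X)^0 → J^i(X_ℂ)` is a torsion group. -/
def TorsionKernel (X : T.Var) (i : ℕ) : Prop := Function.Injective (T.aj X i)

/-- `A X m` is contained in `A Y m'`, compatibly with the Abel–Jacobi maps (by a correspondence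
which has a left inverse). -/
def Contained (X : T.Var) (m : ℕ) (Y : T.Var) (m' : ℕ) : Prop :=
  ∃ (s : T.A X m →ₗ[ℚ] T.A Y m') (s' : T.J X m →ₗ[ℚ] T.J Y m'),
    Function.Injective s ∧ ∀ z, T.aj Y m' (s z) = s' (T.aj X m z)

/-- Known facts.
* `zero`, `above`: there are no homologically trivial cycles `≠ 0` in codimension `0`, and no cycles
  in codimension above the dimension.
* `chow` (Chow, Hironaka): each smooth proper `X` over `ℚ` is dominated by a smooth projective `X'`
  of the same dimension by a birational morphism `f`; `f^*` is compatible with the Abel–Jacobi maps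
  and `f_* f^* = 1`.
* `incl`, `proj`: the blow-up formula (Manin). The motive of the blow-up `Y` of `ℙ^n` along the
  disjoint union of the varieties `X` of the list is the direct sum of powers of the Lefschetz motive
  and of the motives `h(X)(-j)`, `0 < j < n - dim X`. So `CH^m(X)^0 → CH^(m+j)(Y)^0` is injective,
  and an element `z ≠ 0` of `CH^m(Y)^0` has a component `≠ 0` in one of the groups
  `CH^(m-j)(X)^0`; the maps are given by correspondences, so they are compatible with the
  Abel–Jacobi maps. -/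
structure Facts : Prop where
  zero : ∀ X : T.Var, Subsingleton (T.A X 0)
  above : ∀ (X : T.Var) (m : ℕ), T.dim X < m → Subsingleton (T.A X m)
  chow : ∀ X : T.Var, ∃ X', T.Projective X' ∧ T.dim X' = T.dim X ∧ ∀ m, T.Contained X m X' m
  incl : ∀ (l : List T.Var) (n : ℕ), (∀ X ∈ l, T.Projective X) → T.N0 l ≤ n → ∀ X ∈ l,
    ∀ m j : ℕ, 0 < j → T.dim X + j < n → T.Contained X m (T.Bl l n) (m + j)
  proj : ∀ (l : List T.Var) (n : ℕ), (∀ X ∈ l, T.Projective X) → T.N0 l ≤ n → ∀ (m' : ℕ)
    (z : T.A (T.Bl l n) m'), z ≠ 0 → ∃ X ∈ l, ∃ m j : ℕ, m + j = m' ∧ 0 < j ∧ T.dim X + j < n ∧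
      ∃ (r : T.A (T.Bl l n) m' →ₗ[ℚ] T.A X m) (r' : T.J (T.Bl l n) m' →ₗ[ℚ] T.J X m),
        (∀ y, T.aj X m (r y) = r' (T.aj _ m' y)) ∧ r z ≠ 0

/-- The sequence of finite lists `l s` of projective varieties is *exhausting*: each projective
variety belongs to all but finitely many of the lists. -/
structure Exhausting (l : ℕ → List T.Var) : Prop where
  all : ∀ X : T.Var, T.Projective X → ∃ s₀, ∀ s, s₀ ≤ s → X ∈ l s
  projective : ∀ s, ∀ X ∈ l s, T.Projective X

/-- (1) For all finite lists `l` of projective varieties, `n ≥ N0 l` and all `i`, the kernel of the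
Abel–Jacobi map of the blow-up of `ℙ^n` in codimension `i` is a torsion group if and only if this
holds for all `X ∈ l` in all codimensions `i - j`, `0 < j < n - dim X`. -/
def ForEachBlowUp : Prop :=
  ∀ (l : List T.Var) (n : ℕ), (∀ X ∈ l, T.Projective X) → T.N0 l ≤ n → ∀ i : ℕ,
    (T.TorsionKernel (T.Bl l n) i ↔ ∀ X ∈ l, ∀ m j : ℕ, m + j = i → 0 < j →
      T.dim X + j < n → T.TorsionKernel X m)

/-- (2) Let `l` be exhausting, `n s ≥ N0 (l s)`, and `n s > dim X + i` for all `X ∈ l s`. The kernels
are torsion groups for all smooth proper varieties over `ℚ` and all codimensions `1 ≤ m ≤ i` if and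
only if this holds in codimension `i + 1` for the blow-up of `ℙ^(n s)` along the disjoint union of
the members of `l s`, for infinitely many `s`. -/
def CodimensionShift : Prop :=
  ∀ (i : ℕ) (l : ℕ → List T.Var) (n : ℕ → ℕ), T.Exhausting l →
    (∀ s, ∀ X ∈ l s, T.dim X + i < n s) → (∀ s, T.N0 (l s) ≤ n s) →
    ((∀ (X : T.Var) (m : ℕ), 1 ≤ m → m ≤ i → T.TorsionKernel X m) ↔
      {s | T.TorsionKernel (T.Bl (l s) (n s)) (i + 1)}.Infinite)

/-- (3) Let `l` be exhausting, `2 N s - 1 ≥ N0 (l s)`, and `N s > dim X` for all `X ∈ l s`. The kernels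
are torsion groups for all smooth proper varieties over `ℚ` and all codimensions `m ≥ 1` if and
only if this holds in codimension `N s` for the blow-up of `ℙ^(2 N s - 1)` along the disjoint union
of the members of `l s`, for infinitely many `s`. -/
def MiddleSuffices : Prop :=
  ∀ (l : ℕ → List T.Var) (N : ℕ → ℕ), T.Exhausting l → (∀ s, ∀ X ∈ l s, T.dim X < N s) →
    (∀ s, T.N0 (l s) ≤ 2 * N s - 1) →
    ((∀ (X : T.Var) (m : ℕ), 1 ≤ m → T.TorsionKernel X m) ↔
      {s | T.TorsionKernel (T.Bl (l s) (2 * N s - 1)) (N s)}.Infinite)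

end AJOverQ

end Pool.Agent.Q129.BL
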