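import Pool.Agent.Q129.BL.QDefs

/-!
# Abel–Jacobi maps over `ℚ` and blow-ups of projective spaces
-/

universe u

namespace Pool.Agent.Q129.BL

namespace AJOverQ

variable {T : AJOverQ.{u}}

lemma of_contained {X Y : T.Var} {m m' : ℕ} (h : T.Contained X m Y m')
    (hY : T.TorsionKernel Y m') : T.TorsionKernel X m := by
  obtain ⟨s, s', hs, hc⟩ := h
  intro a b hab
  apply hs
  apply hY
  rw [hc, hc, hab]

/-- the exact equivalence for one blow-up -/
theorem blowup_iff (hT : T.Facts) (l : List T.Var) (hp : ∀ X ∈ l, T.Projective X) (n : ℕ)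
    (hl : T.N0 l ≤ n) (i : ℕ) :
    T.TorsionKernel (T.Bl l n) i ↔ ∀ X ∈ l, ∀ m j : ℕ, m + j = i → 0 < j → T.dim X + j < n →
      T.TorsionKernel X m := by
  constructor
  · rintro h X hX m j rfl hj hd
    exact of_contained (hT.incl l n hp hl X hX m j hj hd) h
  · intro h
    rw [TorsionKernel, injective_iff_map_eq_zero]
    intro z hz
    by_contra hne
    obtain ⟨X, hX, m, j, hmj, hj, hd, r, r', hr, hrz⟩ := hT.proj l n hp hl i z hne
    apply hrz
    have h0 : T.aj X m (r z) = 0 := by rw [hr, hz, map_zero]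
    exact (injective_iff_map_eq_zero _).1 (h X hX m j hmj hj hd) _ h0

lemma torsionKernel_zero (hT : T.Facts) (X : T.Var) : T.TorsionKernel X 0 := by
  have := hT.zero X
  exact Function.injective_of_subsingleton _

/-- fixed codimension -/
theorem codim_iff (hT : T.Facts) (i : ℕ) (l : ℕ → List T.Var) (n : ℕ → ℕ)
    (hE : T.Exhausting l) (hd : ∀ s, ∀ X ∈ l s, T.dim X + i < n s) (he : ∀ s, T.N0 (l s) ≤ n s) :
    (∀ (X : T.Var) (m : ℕ), 1 ≤ m → m ≤ i → T.TorsionKernel X m) ↔
      {s | T.TorsionKernel (T.Bl (l s) (n s)) (i + 1)}.Infinite := by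
  constructor
  · intro h
    have : {s | T.TorsionKernel (T.Bl (l s) (n s)) (i + 1)} = Set.univ := by
      ext s
      simp only [Set.mem_setOf_eq, Set.mem_univ, iff_true]
      refine (blowup_iff hT (l s) (hE.projective s) (n s) (he s) (i + 1)).2
        fun X _ m j hmj hj _ => ?_
      rcases Nat.eq_zero_or_pos m with hm | hm
      · subst hm
        exact torsionKernel_zero hT X
      · exact h X m hm (by omega)
    rw [this]
    exact Set.infinite_univ
  · intro h X m hm hmi
    obtain ⟨X', hp, hdim, hc⟩ := hT.chow X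
    obtain ⟨s₀, hs₀⟩ := hE.all X' hp
    obtain ⟨s, hs, hlt⟩ := h.exists_gt s₀
    have h1 := hd s X' (hs₀ s hlt.le)
    exact of_contained (hc m) ((blowup_iff hT (l s) (hE.projective s) (n s) (he s) (i + 1)).1 hs
      X' (hs₀ s hlt.le) m (i + 1 - m) (by omega) (by omega) (by omega))

/-- all codimensions -/
theorem middle_iff (hT : T.Facts) (l : ℕ → List T.Var) (N : ℕ → ℕ)
    (hE : T.Exhausting l) (hd : ∀ s, ∀ X ∈ l s, T.dim X < N s)
    (he : ∀ s, T.N0 (l s) ≤ 2 * N s - 1) :
    (∀ (X : T.Var) (m : ℕ), 1 ≤ m → T.TorsionKernel X m) ↔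
      {s | T.TorsionKernel (T.Bl (l s) (2 * N s - 1)) (N s)}.Infinite := by
  constructor
  · intro h
    have : {s | T.TorsionKernel (T.Bl (l s) (2 * N s - 1)) (N s)} = Set.univ := by
      ext s
      simp only [Set.mem_setOf_eq, Set.mem_univ, iff_true]
      refine (blowup_iff hT (l s) (hE.projective s) _ (he s) _).2 fun X _ m j hmj hj _ => ?_
      rcases Nat.eq_zero_or_pos m with hm | hm
      · subst hm
        exact torsionKernel_zero hT X
      · exact h X m hm
    rw [this]
    exact Set.infinite_univ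
  · intro h X m hm
    obtain ⟨X', hp, hdim, hc⟩ := hT.chow X
    obtain ⟨s₀, hs₀⟩ := hE.all X' hp
    obtain ⟨s, hs, hlt⟩ := h.exists_gt s₀
    have h1 := hd s X' (hs₀ s hlt.le)
    by_cases hdm : T.dim X' < m
    · have := hT.above X' m hdm
      exact of_contained (hc m) (Function.injective_of_subsingleton _)
    · exact of_contained (hc m) ((blowup_iff hT (l s) (hE.projective s) _ (he s) _).1 hs
        X' (hs₀ s hlt.le) m (N s - m) (by omega) (by omega) (by omega))

end AJOverQ

end Pool.Agent.Q129.BL
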